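import Pool.Agent.L7h80.MG.Stm

/-!
Project MG (helper80), part MAPP: the approximation lemma for multihomogeneous polynomials
(after `Pool.Agent.Y129.TB.approx`).
-/

set_option autoImplicit false

namespace Pool.Agent.L7h47.MG

open MvPolynomial WittVector Pool.Agent.Y129.TB
open Pool.Agent.Y129.TA (Tilting TiltPair)
open Pool.Agent.W476.TP (Sig wt MH Rel)
open Pool.Agent.L7h80.MG

theorem weight_wt {r : ℕ} (m : Fin r → ℕ) (α : Sig m →₀ ℕ) (κ : Fin r) :
    Finsupp.weight (wt m) α κ = ∑ j, α ⟨κ, j⟩ := by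
  classical
  rw [Finsupp.weight_apply, Finsupp.sum_fintype _ _ (by intro i; simp), Finset.sum_apply,
    Fintype.sum_sigma]
  rw [Finset.sum_eq_single κ]
  · refine Finset.sum_congr rfl fun j _ => ?_
    simp [wt]
  · intro b _ hb
    refine Finset.sum_eq_zero fun j _ => ?_
    simp [wt, Pi.single_apply, hb.symm]
  · intro h; exact absurd (Finset.mem_univ κ) h

theorem prod_wt {r : ℕ} {m : Fin r → ℕ} {R : Type*} [CommMonoid R] (α : Sig m →₀ ℕ) (l : Fin r → R) :
    ∏ i, l i.1 ^ α i = ∏ κ, l κ ^ (Finsupp.weight (wt m) α κ) := by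
  rw [Fintype.prod_sigma]
  refine Finset.prod_congr rfl fun κ _ => ?_
  rw [weight_wt, ← Finset.prod_pow_eq_pow_sum]

/-- a polynomial function with a weighted scaling property over an infinite subset -/
theorem component {r : ℕ} {m : Fin r → ℕ} {F : Type} [Field F] (S : Set F) (hS : S.Infinite)
    {Q : MvPolynomial (Sig m) F} {D : Fin r → ℕ} {t : Sig m → F}
    (h : ∀ l : Fin r → F, (∀ κ, l κ ∈ S) →
      eval (fun i => l i.1 * t i) Q = (∏ κ, l κ ^ D κ) * eval t Q) :
    eval t (weightedHomogeneousComponent (wt m) D Q) = eval t Q := by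
  classical
  let P : MvPolynomial (Fin r) F := ∑ α ∈ Q.support,
    monomial (Finsupp.equivFunOnFinite.symm (Finsupp.weight (wt m) α)) (coeff α Q * ∏ i, t i ^ α i)
  let P' : MvPolynomial (Fin r) F := monomial (Finsupp.equivFunOnFinite.symm D) (eval t Q)
  have hPP : P = P' := by
    refine funext_set (fun _ => S) (fun _ => hS) (fun l hl => ?_)
    have h1 := h l (fun κ => hl κ (Set.mem_univ κ))
    have h2 : eval l P = eval (fun i => l i.1 * t i) Q := by
      show eval l (∑ α ∈ Q.support, _) = _
      rw [map_sum, eval_eq']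
      refine Finset.sum_congr rfl fun α _ => ?_
      rw [eval_monomial, Finsupp.prod_fintype _ _ (by simp)]
      have h3 : ∏ i, (l i.1 * t i) ^ α i = (∏ κ, l κ ^ (Finsupp.weight (wt m) α κ)) * ∏ i, t i ^ α i := by
        simp_rw [mul_pow]
        rw [Finset.prod_mul_distrib, prod_wt]
      rw [h3]
      simp only [Finsupp.equivFunOnFinite_symm_apply_apply]
      ring
    rw [h2, h1]
    show _ = eval l (monomial _ _)
    rw [eval_monomial, Finsupp.prod_fintype _ _ (by simp)]
    simp only [Finsupp.equivFunOnFinite_symm_apply_apply]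
    ring
  have h5 := congrArg (MvPolynomial.coeff (Finsupp.equivFunOnFinite.symm D)) hPP
  have h6 : MvPolynomial.coeff (Finsupp.equivFunOnFinite.symm D) P' = eval t Q := by
    show MvPolynomial.coeff _ (monomial _ _) = _
    rw [coeff_monomial, if_pos rfl]
  rw [h6] at h5
  rw [← h5]
  show _ = MvPolynomial.coeff _ (∑ α ∈ Q.support, _)
  rw [MvPolynomial.coeff_sum, eval_eq']
  have h7 : (weightedHomogeneousComponent (wt m) D Q).support ⊆ Q.support := by
    intro α hα
    rw [mem_support_iff, coeff_weightedHomogeneousComponent] at hα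
    rw [mem_support_iff]
    intro h8
    rw [h8] at hα
    simp at hα
  rw [Finset.sum_subset h7 (fun α _ hα => by rw [notMem_support_iff.1 hα, zero_mul])]
  refine Finset.sum_congr rfl fun α _ => ?_
  rw [coeff_weightedHomogeneousComponent, coeff_monomial]
  by_cases hα : Finsupp.weight (wt m) α = D
  · rw [if_pos hα, if_pos (by rw [hα])]
  · rw [if_neg hα, if_neg (fun h9 => hα (Finsupp.equivFunOnFinite.symm.injective h9)), zero_mul]

theorem component_map {r : ℕ} {m : Fin r → ℕ} {R S : Type} [CommRing R] [CommRing S] (f : R →+* S)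
    (D : Fin r → ℕ) (Q : MvPolynomial (Sig m) R) :
    weightedHomogeneousComponent (wt m) D (MvPolynomial.map f Q) =
      MvPolynomial.map f (weightedHomogeneousComponent (wt m) D Q) := by
  classical
  ext α
  rw [coeff_weightedHomogeneousComponent, coeff_map, coeff_map, coeff_weightedHomogeneousComponent]
  split_ifs
  · rfl
  · rw [map_zero]

section

variable {p : ℕ} [hp : Fact p.Prime] {C F K E : Type} [Field C] [Field F] [CharP F p] [Field K]
  [Field E] [Algebra K C] [Algebra E F]

theorem map_lift_smul' (T : Tilting p C F) {r : ℕ} {m : Fin r → ℕ} {h : MvPolynomial (Sig m) K}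
    {a : Fin r → ℕ} (hh : MH h a)
    (H : (Sig m →₀ ℕ) → WittVector p (OE T.toTiltPair E)) (l : Fin r → T.O) (t : Sig m → T.O) :
    WittVector.map (ev T E fun i => l i.1 * t i) (lift T h H) =
      teichmuller p (∏ κ, l κ ^ a κ) * WittVector.map (ev T E t) (lift T h H) := by
  rw [map_lift, map_lift, Finset.mul_sum]
  refine Finset.sum_congr rfl fun α hα => ?_
  have h1 : Finsupp.weight (wt m) α = a := hh (mem_support_iff.1 hα)
  have h3 : ∏ i, (l i.1 * t i) ^ α i = (∏ κ, l κ ^ a κ) * ∏ i, t i ^ α i := by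
    simp_rw [mul_pow]
    rw [Finset.prod_mul_distrib, prod_wt, h1]
  rw [h3, map_mul]
  ring

end

theorem s_MAPP : S_MAPP := by
  intro p hp C F K E _ _ _ _ _ _ _ _ T B r m h d hh ε hε
  classical
  have hpp : 0 < T.absK p := T.absK.pos T.p_ne
  -- the coefficients become integral
  obtain ⟨b, hb⟩ : ∃ b : ℝ, ∀ α ∈ h.support, T.absK (algebraMap K C (coeff α h)) ≤ b :=
    ⟨∑ α ∈ h.support, T.absK (algebraMap K C (coeff α h)), fun α hα =>
      Finset.single_le_sum (f := fun α => T.absK (algebraMap K C (coeff α h)))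
        (fun α _ => T.absK.nonneg _) hα⟩
  obtain ⟨n, hn⟩ : ∃ n : ℕ, T.absK p ^ n * max b 1 < 1 := by
    obtain ⟨n, hn⟩ := exists_pow_lt_of_lt_one (show (0 : ℝ) < 1 / max b 1 by positivity) T.p_lt
    refine ⟨n, ?_⟩
    rwa [lt_div_iff₀ (by positivity)] at hn
  let h' : MvPolynomial (Sig m) K := MvPolynomial.C ((p : K) ^ n) * h
  have hh' : MH h' d := by
    have h1 := (isWeightedHomogeneous_C (wt m) ((p : K) ^ n)).mul hh
    rwa [zero_add] at h1
  have hint : ∀ α, T.absK (algebraMap K C (coeff α h')) ≤ 1 := by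
    intro α
    rw [coeff_C_mul, map_mul, map_mul, map_pow, map_natCast, map_pow]
    by_cases hα : α ∈ h.support
    · refine (mul_le_mul_of_nonneg_left ((hb α hα).trans (le_max_left b 1))
        (pow_nonneg hpp.le n)).trans hn.le
    · rw [notMem_support_iff.1 hα, map_zero, map_zero, mul_zero]
      exact zero_le_one
  choose H hH using fun α => B.surj (coeff α h') (hint α)
  obtain ⟨c, hc⟩ := exists_pow_lt_of_lt_one (show 0 < ε * T.absK p ^ n by positivity) T.p_lt
  -- the element `q` with `θ(q) = p`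
  obtain ⟨ϖ₀, hϖ₀⟩ := B.val
  let ϖ : T.O := ⟨algebraMap E F ϖ₀, by
    change T.absF _ ≤ 1
    rw [hϖ₀]
    exact T.p_lt.le⟩
  have hϖ : T.absF ϖ = T.absK p := hϖ₀
  have hϖF : (ϖ : F) ≠ 0 := by
    intro h0
    rw [h0, map_zero] at hϖ
    exact hpp.ne hϖ
  let ϖ' : OE T.toTiltPair E := ⟨ϖ, ϖ₀, rfl⟩
  obtain ⟨s, hs⟩ := B.mem (teichmuller p ϖ')
  rw [map_teichmuller] at hs
  have hs1 : T.θ (teichmuller p ϖ) = algebraMap K C s := hs
  rw [T.θ_teich] at hs1
  have hsne : algebraMap K C s ≠ 0 := by
    rw [← hs1]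
    exact T.toTiltPair.sharp_ne hϖF
  have hp' : T.absK (algebraMap K C ((p : K) / s)) ≤ 1 := by
    rw [map_div₀, map_div₀, map_natCast, ← hs1, T.abs_sharp, hϖ, div_self hpp.ne']
  obtain ⟨v₀, hv₀⟩ := B.surj ((p : K) / s) hp'
  have hq : T.θ (teichmuller p ϖ * WittVector.map (OE T.toTiltPair E).subtype v₀) = p := by
    rw [map_mul, hv₀, T.θ_teich, hs1, map_div₀, map_natCast]
    exact mul_div_cancel₀ _ hsne
  -- the set of scalars is infinite
  have hinf : (T.O : Set F).Infinite := by
    have hinj : Function.Injective fun j : ℕ => ((ϖ : F)) ^ j := by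
      intro i j hij
      have h2 : T.absF (ϖ : F) ^ i = T.absF (ϖ : F) ^ j := by
        have h0 : T.absF ((ϖ : F) ^ i) = T.absF ((ϖ : F) ^ j) := congrArg T.absF hij
        rwa [map_pow T.absF, map_pow T.absF] at h0
      have h3 : 0 < T.absF ϖ := T.absF.pos hϖF
      exact (pow_right_strictAnti₀ h3 (by rw [hϖ]; exact T.p_lt)).injective h2
    refine (Set.infinite_range_of_injective hinj).mono ?_
    rintro _ ⟨j, rfl⟩
    exact (ϖ ^ j).2
  -- the chain
  let q : WittVector p (polyFun T E (Sig m)) := WittVector.map (constFun T E (Sig m)) (teichmuller p ϖ' * v₀)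
  have hqt : ∀ t : Sig m → T.O, WittVector.map (ev T E t) q =
      teichmuller p ϖ * WittVector.map (OE T.toTiltPair E).subtype v₀ := by
    intro t
    change WittVector.map (ev T E t) (WittVector.map (constFun T E (Sig m)) _) = _
    rw [map_map', ev_const, map_mul, map_teichmuller]
    rfl
  choose next hnext using fun x : WittVector p (polyFun T E (Sig m)) => Step.exists q x
  let Y : ℕ → WittVector p (polyFun T E (Sig m)) := fun j => next^[j] (lift T h' H)
  have hY : ∀ j, Step q (Y j) (Y (j + 1)) := by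
    intro j
    change Step _ (next^[j] _) (next^[j + 1] _)
    rw [Function.iterate_succ_apply']
    exact hnext _
  have hYt : ∀ (t : Sig m → T.O) j,
      Step (teichmuller p ϖ * WittVector.map (OE T.toTiltPair E).subtype v₀)
        (WittVector.map (ev T E t) (Y j)) (WittVector.map (ev T E t) (Y (j + 1))) := fun t j => by
    have h1 := (hY j).map (ev T E t)
    rwa [hqt] at h1
  have hsc : ∀ (l : Fin r → T.O) (t : Sig m → T.O) j, WittVector.map (ev T E fun i => l i.1 * t i) (Y j) =
      teichmuller p (∏ κ, l κ ^ d κ) * WittVector.map (ev T E t) (Y j) := by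
    intro l t j
    induction j with
    | zero => exact map_lift_smul' T hh' H l t
    | succ j ih =>
      have h1 := hYt (fun i => l i.1 * t i) j
      rw [ih] at h1
      exact h1.unique ((hYt t j).mul (∏ κ, l κ ^ d κ))
  obtain ⟨M, Q, hQ⟩ := ((Y c).coeff 0).2
  have hval : ∀ t : Sig m → T.O, (((WittVector.map (ev T E t) (Y c)).coeff 0 : T.O) : F) ^ p ^ M =
      aeval (fun i => ((t i : T.O) : F)) Q := fun t => hQ t
  refine ⟨M, weightedHomogeneousComponent (wt m) (p ^ M • d) Q,
    weightedHomogeneousComponent_isWeightedHomogeneous _ _, fun t ht h0 => ?_⟩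
  let t' : Sig m → T.O := fun i => ⟨t i, ht i⟩
  have hcomp : aeval t (weightedHomogeneousComponent (wt m) (p ^ M • d) Q) = aeval t Q := by
    have h5 : eval t (weightedHomogeneousComponent (wt m) (p ^ M • d) (MvPolynomial.map (algebraMap E F) Q)) =
        eval t (MvPolynomial.map (algebraMap E F) Q) := by
      refine component (T.O : Set F) hinf fun l hl => ?_
      let l' : Fin r → T.O := fun κ => ⟨l κ, hl κ⟩
      have h1 := hval fun i => l' i.1 * t' i
      have h2 := hval t'
      rw [hsc l' t' c, mul_coeff_zero, teichmuller_coeff_zero, Subring.coe_mul, mul_pow, h2] at h1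
      rw [eval_map, eval_map, ← aeval_def, ← aeval_def]
      have h3 : (((∏ κ, l' κ ^ d κ : T.O)) : F) ^ p ^ M = ∏ κ, l κ ^ (p ^ M • d) κ := by
        push_cast
        rw [← Finset.prod_pow]
        refine Finset.prod_congr rfl fun κ _ => ?_
        rw [← pow_mul, Pi.smul_apply, smul_eq_mul, mul_comm]
      rw [h3] at h1
      exact h1.symm
    rw [component_map, eval_map, eval_map, ← aeval_def, ← aeval_def] at h5
    exact h5
  rw [hcomp] at h0
  have h1 : (WittVector.map (ev T E t') (Y c)).coeff 0 = 0 := by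
    have h2 := hval t'
    have h3 : aeval (fun i => ((t' i : T.O) : F)) Q = 0 := h0
    rw [h3] at h2
    exact Subtype.ext (pow_eq_zero_iff (pow_pos hp.out.pos M).ne' |>.1 h2)
  have h2 : T.absK (T.θ (WittVector.map (ev T E t') (Y 0))) ≤ T.absK p ^ c := by
    by_contra hlt
    push Not at hlt
    exact chain_ne hϖ hq (Y := fun j => WittVector.map (ev T E t') (Y j)) (hYt t') hlt h1
  have h3 : T.θ (WittVector.map (ev T E t') (Y 0)) = aeval (fun i => T.sharp (t i)) h' :=
    θ_lift T h' H hH t'
  rw [h3, map_mul, aeval_C, map_mul, map_pow, map_pow, map_natCast] at h2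
  have h4 : T.absK p ^ n * T.absK (aeval (fun i => T.sharp (t i)) h) ≤ T.absK p ^ n * ε := by
    rw [mul_comm _ ε]
    exact h2.trans hc.le
  exact le_of_mul_le_mul_left h4 (pow_pos hpp n)

end Pool.Agent.L7h47.MG
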